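import Mathlib

/-!
# Saito-type recognition of SPOG arrangements

For every field `K`, every `ℓ`, every central arrangement `A` in `K^ℓ` and all homogeneous
`θ_1, …, θ_{ℓ+1} ∈ D(A)` we prove that conditions (i) and (ii) of the problem are equivalent,
with no assumption on the projective dimension of `D(A)`.
-/

open MvPolynomial

namespace Pool.Agent.Results.MP_eea557_ag.SpogRecognition

universe u

variable {K : Type u} [Field K] {ℓ : ℕ}

/-! ## Definitions -/

/-- The polynomial ring `S = K[x_1, …, x_ℓ]`. -/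
abbrev Poly (K : Type u) [Field K] (ℓ : ℕ) := MvPolynomial (Fin ℓ) K

/-- The module `⨁ S ∂_{x_i}` of polynomial vector fields: `θ = ∑ θ_j ∂_{x_j}` is given by the
tuple of its coefficients `θ_j = θ(x_j) ∈ S`. -/
abbrev VField (K : Type u) [Field K] (ℓ : ℕ) := Fin ℓ → Poly K ℓ

/-- The action `θ(f) = ∑ θ_j ∂f/∂x_j` of a vector field on a polynomial. -/
noncomputable def act (θ : VField K ℓ) (f : Poly K ℓ) : Poly K ℓ := ∑ j, θ j * pderiv j f

/-- The linear form `a_1 x_1 + ⋯ + a_ℓ x_ℓ`. -/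
noncomputable def linForm (a : Fin ℓ → K) : Poly K ℓ := ∑ i, C (a i) * X i

/-- A central arrangement in `K^ℓ`: a finite set of linear hyperplanes `H = ker α_H`, where
`α_H` is the nonzero linear form with coefficient vector `coeffs H`. -/
structure CentralArrangement (K : Type u) [Field K] (ℓ : ℕ) where
  /-- the hyperplanes -/
  hyperplanes : Finset (Submodule K (Fin ℓ → K))
  /-- the coefficients of the chosen linear form `α_H` -/
  coeffs : Submodule K (Fin ℓ → K) → Fin ℓ → K
  coeffs_ne_zero : ∀ H ∈ hyperplanes, coeffs H ≠ 0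
  mem_iff : ∀ H ∈ hyperplanes, ∀ v : Fin ℓ → K, v ∈ H ↔ ∑ i, coeffs H i * v i = 0

/-- The linear form `α_H`. -/
noncomputable def CentralArrangement.form (A : CentralArrangement K ℓ)
    (H : Submodule K (Fin ℓ → K)) : Poly K ℓ := linForm (A.coeffs H)

/-- The defining polynomial `Q = ∏ α_H`. -/
noncomputable def CentralArrangement.Q (A : CentralArrangement K ℓ) : Poly K ℓ :=
  ∏ H ∈ A.hyperplanes, A.form H

/-- `θ ∈ D(A)`: `θ(α_H) ∈ α_H S` for all `H ∈ A`. -/
def CentralArrangement.MemD (A : CentralArrangement K ℓ) (θ : VField K ℓ) : Prop :=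
  ∀ H ∈ A.hyperplanes, A.form H ∣ act θ (A.form H)

/-- `f ∈ S_n` for an integer `n`: all monomials of `f` have degree `n`. -/
def InDegree (f : Poly K ℓ) (n : ℤ) : Prop := ∀ m ∈ f.support, ((Finsupp.degree m : ℕ) : ℤ) = n

/-- `h ∈ S_{>0}`: `h` is homogeneous of some positive degree (so `0 ∈ S_{>0}`). -/
def InSPos (h : Poly K ℓ) : Prop := ∃ n : ℕ, 0 < n ∧ h.IsHomogeneous n

/-- The combination `f_1 θ_1 + ⋯ + f_{ℓ+1} θ_{ℓ+1}`. -/
noncomputable def comb (f : Fin (ℓ + 1) → Poly K ℓ) (θ : Fin (ℓ + 1) → VField K ℓ) :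
    VField K ℓ := fun j => ∑ r, f r * θ r j

/-- The relation `f_1 θ_1 + ⋯ + f_{ℓ+1} θ_{ℓ+1} = 0`. -/
def IsRel (θ : Fin (ℓ + 1) → VField K ℓ) (f : Fin (ℓ + 1) → Poly K ℓ) : Prop := comb f θ = 0

/-- `θ_1, …, θ_{ℓ+1}` lie in `D(A)` and generate it as an `S`-module. -/
def Generates (A : CentralArrangement K ℓ) (θ : Fin (ℓ + 1) → VField K ℓ) : Prop :=
  (∀ r, A.MemD (θ r)) ∧ ∀ η, A.MemD η → ∃ f, comb f θ = η

/-- `{θ_1, …, θ_{ℓ+1}}` is a minimal generating set of `D(A)`: it generates `D(A)`, and no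
`θ_r` can be left out. -/
def IsMinGen (A : CentralArrangement K ℓ) (θ : Fin (ℓ + 1) → VField K ℓ) : Prop :=
  Generates A θ ∧ ∀ r, ¬ ∀ η, A.MemD η → ∃ f, f r = 0 ∧ comb f θ = η

/-- The sequence `0 → S → S^{ℓ+1} → D(A) → 0`, `1 ↦ f`, `e_r ↦ η_r`, is exact (a free
resolution of `D(A)`). -/
def IsResolution (A : CentralArrangement K ℓ) (η : Fin (ℓ + 1) → VField K ℓ)
    (f : Fin (ℓ + 1) → Poly K ℓ) : Prop :=
  f ≠ 0 ∧ (∀ c, IsRel η c ↔ ∃ b, ∀ r, c r = b * f r) ∧ Generates A η

/-- The maps `1 ↦ f`, `e_r ↦ η_r` are homogeneous of degree zero from `S[-e]` to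
`⨁ S[-d_r]` and from there to `D(A)`. -/
def IsGraded (η : Fin (ℓ + 1) → VField K ℓ) (f : Fin (ℓ + 1) → Poly K ℓ)
    (d : Fin (ℓ + 1) → ℤ) (e : ℤ) : Prop :=
  (∀ r j, InDegree (η r j) (d r)) ∧ ∀ r, InDegree (f r) (e - d r)

/-- `A` is SPOG: there is a minimal graded free resolution
`0 → S[-d_{ℓ+1}-1] → ⨁_{r ≤ ℓ} S[-d_r] ⊕ S[-d_{ℓ+1}] → D(A) → 0` in which the component
`S[-d_{ℓ+1}-1] → S[-d_{ℓ+1}]` is a nonzero linear form.  (Minimal: the entries `f_r` of the first
matrix have no constant term.) -/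
def CentralArrangement.IsSPOG (A : CentralArrangement K ℓ) : Prop :=
  ∃ (η : Fin (ℓ + 1) → VField K ℓ) (f : Fin (ℓ + 1) → Poly K ℓ) (d : Fin (ℓ + 1) → ℤ),
    IsResolution A η f ∧ IsGraded η f d (d (Fin.last ℓ) + 1) ∧
    (∀ r, constantCoeff (f r) = 0) ∧ f (Fin.last ℓ) ≠ 0

/-- The `f_i` have no nonconstant common divisor. -/
def NoCommonDivisor (f : Fin (ℓ + 1) → Poly K ℓ) : Prop :=
  ∀ q : Poly K ℓ, (∀ r, q ∣ f r) → ∃ c : K, q = C c

/-- `g_1 θ_1 + ⋯ + g_{ℓ+1} θ_{ℓ+1} = 0` is a relation of minimal degree, and it is the only one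
up to nonzero constants. -/
def IsUniqueMinRel (θ : Fin (ℓ + 1) → VField K ℓ) (g : Fin (ℓ + 1) → Poly K ℓ) : Prop :=
  IsRel θ g ∧ NoCommonDivisor g ∧
    ∀ f, IsRel θ f → NoCommonDivisor f → ∃ c : K, c ≠ 0 ∧ ∀ r, f r = C c * g r

/-- Condition (i) of the problem. -/
def CondI (A : CentralArrangement K ℓ) (θ : Fin (ℓ + 1) → VField K ℓ)
    (g : Fin (ℓ + 1) → Poly K ℓ) : Prop :=
  A.IsSPOG ∧ IsMinGen A θ ∧ IsUniqueMinRel θ g ∧
  ((g (Fin.last ℓ)).IsHomogeneous 1 ∧ g (Fin.last ℓ) ≠ 0)

/-- Condition (ii) of the problem. -/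
def CondII (g : Fin (ℓ + 1) → Poly K ℓ) : Prop :=
  ((g (Fin.last ℓ)).IsHomogeneous 1 ∧ g (Fin.last ℓ) ≠ 0) ∧
  (∀ r : Fin ℓ, InSPos (g r.castSucc)) ∧
  ¬ ∃ h, InSPos h ∧ ∀ r : Fin ℓ, g r.castSucc ∈ Ideal.span {h, g (Fin.last ℓ)}

/-- The square matrix `M_r` obtained from `M = (θ_i(x_j))` by deleting row `r`. -/
noncomputable def minor (θ : Fin (ℓ + 1) → VField K ℓ) (r : Fin (ℓ + 1)) :
    Matrix (Fin ℓ) (Fin ℓ) (Poly K ℓ) :=
  Matrix.of fun i j => θ (r.succAbove i) j

/-- The equations `(-1)^r det M_r = g_r Q` (`r = 1, …, ℓ+1`) defining the `g_r`. -/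
def IsSaitoCoeffs (A : CentralArrangement K ℓ) (θ : Fin (ℓ + 1) → VField K ℓ)
    (g : Fin (ℓ + 1) → Poly K ℓ) : Prop :=
  ∀ r, (-1) ^ (r.val + 1) * (minor θ r).det = g r * A.Q

/-! ## Homogeneous polynomials -/

lemma homog_left_of_mul {σ : Type*} {p q : MvPolynomial σ K} {n : ℕ}
    (h : (p * q).IsHomogeneous n) (hp : p ≠ 0) (hq : q ≠ 0) :
    p.IsHomogeneous p.totalDegree := by
  classical
  set P : MvPowerSeries σ K := (p : MvPowerSeries σ K) with hP
  set Q' : MvPowerSeries σ K := (q : MvPowerSeries σ K) with hQ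
  have hP0 : P ≠ 0 := by
    intro h0
    apply hp
    ext d
    have := congrArg (MvPowerSeries.coeff d) h0
    simpa [hP] using this
  have hQ0 : Q' ≠ 0 := by
    intro h0
    apply hq
    ext d
    have := congrArg (MvPowerSeries.coeff d) h0
    simpa [hQ] using this
  obtain ⟨a, ha⟩ : ∃ a : ℕ, (a : ℕ∞) = P.order := ⟨P.order.toNat,
    MvPowerSeries.ne_zero_iff_order_finite.mp hP0⟩
  obtain ⟨b, hb⟩ : ∃ b : ℕ, (b : ℕ∞) = Q'.order := ⟨Q'.order.toNat,
    MvPowerSeries.ne_zero_iff_order_finite.mp hQ0⟩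
  have hmul := MvPowerSeries.homogeneousComponent_mul_of_le_order (f := P) (g := Q')
    (p := a) (q := b) (le_of_eq ha) (le_of_eq hb)
  have hne : MvPowerSeries.homogeneousComponent (a + b) (P * Q') ≠ 0 := by
    rw [hmul]
    exact mul_ne_zero (MvPowerSeries.homogeneousComponent_of_order ha)
      (MvPowerSeries.homogeneousComponent_of_order hb)
  have hpq : p * q ≠ 0 := mul_ne_zero hp hq
  -- a + b = n
  have hab : a + b = n := by
    obtain ⟨d, hd⟩ : ∃ d, MvPowerSeries.coeff d
        (MvPowerSeries.homogeneousComponent (a + b) (P * Q')) ≠ 0 := by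
      by_contra hcon
      push Not at hcon
      exact hne (MvPowerSeries.ext (fun d => by simpa using hcon d))
    rw [MvPowerSeries.coeff_homogeneousComponent] at hd
    split_ifs at hd with hdeg
    · have hcoe : MvPowerSeries.coeff d (P * Q') = MvPolynomial.coeff d (p * q) := by
        rw [hP, hQ, ← MvPolynomial.coe_mul, MvPolynomial.coeff_coe]
      rw [hcoe] at hd
      by_contra hcon
      exact hd (h.coeff_eq_zero (by rw [hdeg]; exact hcon))
    · exact absurd rfl hd
  have htd : p.totalDegree + q.totalDegree = n := by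
    rw [← totalDegree_mul_of_isDomain hp hq]
    exact h.totalDegree hpq
  have h1 : a ≤ p.totalDegree := by
    obtain ⟨d, hd, -⟩ := P.exists_coeff_ne_zero_and_order (by rw [← ha]; rfl)
    have h2 : P.order ≤ (Finsupp.degree d : ℕ) := MvPowerSeries.order_le hd
    rw [← ha] at h2
    have h3 : a ≤ Finsupp.degree d := by exact_mod_cast h2
    refine h3.trans ?_
    have hd' : d ∈ p.support := by
      rw [mem_support_iff]
      simpa [hP] using hd
    exact le_totalDegree hd'
  have h2 : b ≤ q.totalDegree := by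
    obtain ⟨d, hd, -⟩ := Q'.exists_coeff_ne_zero_and_order (by rw [← hb]; rfl)
    have h2 : Q'.order ≤ (Finsupp.degree d : ℕ) := MvPowerSeries.order_le hd
    rw [← hb] at h2
    have h3 : b ≤ Finsupp.degree d := by exact_mod_cast h2
    refine h3.trans ?_
    have hd' : d ∈ q.support := by
      rw [mem_support_iff]
      simpa [hQ] using hd
    exact le_totalDegree hd'
  have hatd : a = p.totalDegree := by omega
  have key : ∀ d, MvPolynomial.coeff d p ≠ 0 → Finsupp.degree d = p.totalDegree := by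
    intro d hd
    have hd' : MvPowerSeries.coeff d P ≠ 0 := by simpa [hP] using hd
    have h3 : P.order ≤ (Finsupp.degree d : ℕ) := MvPowerSeries.order_le hd'
    rw [← ha] at h3
    have h4 : a ≤ Finsupp.degree d := by exact_mod_cast h3
    have h5 : Finsupp.degree d ≤ p.totalDegree := le_totalDegree (mem_support_iff.mpr hd)
    omega
  intro d hd
  rw [← key d hd, Finsupp.degree_eq_weight_one]
  rfl

/-! ## Linear forms -/

lemma linForm_isHomogeneous (a : Fin ℓ → K) : (linForm a).IsHomogeneous 1 := by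
  unfold linForm
  exact IsHomogeneous.sum _ _ _ (fun i _ => isHomogeneous_C_mul_X _ _)

lemma eq_linForm {p : Poly K ℓ} (h : p.IsHomogeneous 1) : ∃ a, p = linForm a := by
  have h1 : p ∈ MvPolynomial.homogeneousSubmodule (Fin ℓ) K 1 := h
  rw [homogeneousSubmodule_one_eq_span_X, Submodule.mem_span_range_iff_exists_fun] at h1
  obtain ⟨c, hc⟩ := h1
  refine ⟨c, ?_⟩
  rw [← hc]
  unfold linForm
  simp [MvPolynomial.smul_eq_C_mul]

lemma prime_of_homog_one {p : Poly K ℓ} (h : p.IsHomogeneous 1) (h0 : p ≠ 0) : Prime p := by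
  rw [← UniqueFactorizationMonoid.irreducible_iff_prime]
  apply irreducible_of_totalDegree_eq_one (h.totalDegree h0)
  intro x hx
  rw [isUnit_iff_ne_zero]
  rintro rfl
  apply h0
  ext i
  simpa using hx i

lemma eval_linForm (a v : Fin ℓ → K) : eval v (linForm a) = ∑ i, a i * v i := by
  simp [linForm]

lemma linForm_ne_zero {a : Fin ℓ → K} (ha : a ≠ 0) : linForm a ≠ 0 := by
  classical
  intro h
  apply ha
  ext i
  have := congrArg (eval (Pi.single i 1)) h
  simpa [eval_linForm, Pi.single_apply] using this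

lemma act_linForm (θ : VField K ℓ) (a : Fin ℓ → K) :
    act θ (linForm a) = ∑ j, θ j * C (a j) := by
  classical
  unfold act linForm
  refine Finset.sum_congr rfl (fun j _ => ?_)
  congr 1
  rw [map_sum, Finset.sum_eq_single j]
  · simp
  · intro b _ hb
    simp [pderiv_X_of_ne hb]
  · simp

lemma act_comb (f : Fin (ℓ + 1) → Poly K ℓ) (θ : Fin (ℓ + 1) → VField K ℓ) (p : Poly K ℓ) :
    act (comb f θ) p = ∑ r, f r * act (θ r) p := by
  unfold act comb
  simp only [Finset.sum_mul, Finset.mul_sum]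
  rw [Finset.sum_comm]
  refine Finset.sum_congr rfl (fun r _ => Finset.sum_congr rfl (fun j _ => ?_))
  ring

lemma comb_apply (f : Fin (ℓ + 1) → Poly K ℓ) (θ : Fin (ℓ + 1) → VField K ℓ) (j : Fin ℓ) :
    comb f θ j = ∑ r, f r * θ r j := rfl

lemma CentralArrangement.MemD.comb {A : CentralArrangement K ℓ} {θ : Fin (ℓ + 1) → VField K ℓ}
    (hθ : ∀ r, A.MemD (θ r)) (f : Fin (ℓ + 1) → Poly K ℓ) : A.MemD (comb f θ) := by
  intro H hH
  rw [act_comb]
  exact Finset.dvd_sum (fun r _ => Dvd.dvd.mul_left (hθ r H hH) _)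

namespace CentralArrangement

variable (A : CentralArrangement K ℓ)

lemma form_homog (H) : (A.form H).IsHomogeneous 1 := linForm_isHomogeneous _

lemma form_ne_zero {H} (hH : H ∈ A.hyperplanes) : A.form H ≠ 0 :=
  linForm_ne_zero (A.coeffs_ne_zero H hH)

lemma form_prime {H} (hH : H ∈ A.hyperplanes) : Prime (A.form H) :=
  prime_of_homog_one (A.form_homog H) (A.form_ne_zero hH)

lemma Q_ne_zero : A.Q ≠ 0 := Finset.prod_ne_zero_iff.mpr (fun _ hH => A.form_ne_zero hH)

lemma Q_homog : (A.Q).IsHomogeneous A.hyperplanes.card := by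
  have := IsHomogeneous.prod A.hyperplanes A.form (fun _ => 1) (fun H _ => A.form_homog H)
  simpa [Q] using this

lemma eq_of_form_dvd {H H'} (hH : H ∈ A.hyperplanes) (hH' : H' ∈ A.hyperplanes)
    (hdvd : A.form H ∣ A.form H') : H = H' := by
  obtain ⟨q, hq⟩ := hdvd
  have hq0 : q ≠ 0 := by
    rintro rfl
    exact A.form_ne_zero hH' (by simpa using hq)
  have htd : (A.form H').totalDegree = (A.form H).totalDegree + q.totalDegree := by
    rw [hq, totalDegree_mul_of_isDomain (A.form_ne_zero hH) hq0]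
  rw [(A.form_homog H').totalDegree (A.form_ne_zero hH'),
    (A.form_homog H).totalDegree (A.form_ne_zero hH)] at htd
  have hq1 : q.totalDegree = 0 := by omega
  obtain ⟨c, rfl⟩ : ∃ c, q = C c := ⟨_, (totalDegree_eq_zero_iff_eq_C (p := q)).mp hq1⟩
  have hc : c ≠ 0 := by
    rintro rfl
    simp at hq0
  ext v
  rw [A.mem_iff H hH, A.mem_iff H' hH', ← eval_linForm, ← eval_linForm]
  have h1 : eval v (A.form H') = eval v (A.form H) * c := by
    rw [hq]; simp
  unfold form at h1
  rw [h1]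
  simp [hc]

lemma Q_dvd {z : Poly K ℓ} (h : ∀ H ∈ A.hyperplanes, A.form H ∣ z) : A.Q ∣ z := by
  apply Finset.prod_dvd_of_isRelPrime _ h
  intro H hH H' hH' hne
  have h1 := (A.form_prime hH).irreducible.isRelPrime_iff_not_dvd (n := A.form H')
  exact h1.mpr (fun hd => hne (A.eq_of_form_dvd hH hH' hd))

end CentralArrangement

/-! ## Saito's divisibility and Cramer's rule -/

/-- The matrix `(η_i(x_j))`. -/
noncomputable def mat (η : Fin ℓ → VField K ℓ) : Matrix (Fin ℓ) (Fin ℓ) (Poly K ℓ) :=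
  Matrix.of fun i j => η i j

lemma mat_mulVec (η : Fin ℓ → VField K ℓ) (a : Fin ℓ → K) (i : Fin ℓ) :
    (mat η).mulVec (fun j => C (a j)) i = act (η i) (linForm a) := by
  rw [act_linForm]
  simp [Matrix.mulVec, dotProduct, mat]

lemma Q_dvd_det (A : CentralArrangement K ℓ) (η : Fin ℓ → VField K ℓ)
    (hη : ∀ i, A.MemD (η i)) : A.Q ∣ (mat η).det := by
  apply A.Q_dvd
  intro H hH
  obtain ⟨c, hc⟩ : ∃ c, A.coeffs H c ≠ 0 := by
    by_contra hcon
    push Not at hcon
    exact A.coeffs_ne_zero H hH (funext hcon)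
  have h1 : (mat η).adjugate.mulVec ((mat η).mulVec (fun j => C (A.coeffs H j))) =
      (mat η).det • (fun j => (C (A.coeffs H j) : Poly K ℓ)) := by
    rw [Matrix.mulVec_mulVec, Matrix.adjugate_mul, Matrix.smul_mulVec, Matrix.one_mulVec]
  have h2 := congrFun h1 c
  simp only [Pi.smul_apply, smul_eq_mul] at h2
  have h3 : A.form H ∣ (mat η).det * C (A.coeffs H c) := by
    rw [← h2]
    have h4 : (mat η).mulVec (fun j => C (A.coeffs H j)) = fun r => act (η r) (A.form H) :=
      funext (fun r => mat_mulVec η (A.coeffs H) r)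
    rw [h4, Matrix.mulVec_eq_sum]
    simp only [Finset.sum_apply, Pi.smul_apply]
    apply Finset.dvd_sum
    intro r _
    exact Dvd.dvd.mul_left (hη r H hH) _
  have hu : IsUnit (C (A.coeffs H c) : Poly K ℓ) := (isUnit_iff_ne_zero.mpr hc).map C
  exact (hu.dvd_mul_right).mp h3

lemma cramer_expand (A : CentralArrangement K ℓ) (η : Fin ℓ → VField K ℓ)
    (hη : ∀ i, A.MemD (η i)) {g : Poly K ℓ} (hg : (mat η).det = g * A.Q)
    {θ : VField K ℓ} (hθ : A.MemD θ) : ∃ b : Fin ℓ → Poly K ℓ, ∀ j, g * θ j = ∑ r, b r * η r j := by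
  classical
  have hdvd : ∀ r, A.Q ∣ ((mat η).updateRow r θ).det := by
    intro r
    have h1 : (mat η).updateRow r θ = mat (Function.update η r θ) := by
      ext i j
      by_cases hir : i = r
      · subst hir
        simp [mat]
      · simp [mat, hir]
    rw [h1]
    apply Q_dvd_det
    intro i
    by_cases hir : i = r
    · subst hir
      simpa using hθ
    · simpa [hir] using hη i
  choose b hb using hdvd
  refine ⟨b, ?_⟩
  have h2 := Matrix.mulVec_cramer (mat η).transpose θ
  intro j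
  have h3 := congrFun h2 j
  simp only [Matrix.mulVec, dotProduct, Matrix.transpose_apply, Matrix.cramer_transpose_apply,
    Matrix.det_transpose, Pi.smul_apply, smul_eq_mul] at h3
  rw [hg] at h3
  have h4 : A.Q * (g * θ j) = A.Q * ∑ r, b r * η r j := by
    rw [Finset.mul_sum, ← mul_assoc, mul_comm A.Q g, ← h3]
    refine Finset.sum_congr rfl (fun r _ => ?_)
    rw [hb r]
    simp only [mat, Matrix.of_apply]
    ring
  exact mul_left_cancel₀ A.Q_ne_zero h4

lemma rel_apply {θ : Fin (ℓ + 1) → VField K ℓ} {f : Fin (ℓ + 1) → Poly K ℓ} (hf : IsRel θ f)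
    (j : Fin ℓ) : ∑ r, f r * θ r j = 0 := congrFun hf j

lemma rel_act {θ : Fin (ℓ + 1) → VField K ℓ} {f : Fin (ℓ + 1) → Poly K ℓ} (hf : IsRel θ f)
    (p : Poly K ℓ) : ∑ r, f r * act (θ r) p = 0 := by
  rw [← act_comb, hf]
  simp [act]

lemma rel_of_apply {θ : Fin (ℓ + 1) → VField K ℓ} {f : Fin (ℓ + 1) → Poly K ℓ}
    (hf : ∀ j, ∑ r, f r * θ r j = 0) : IsRel θ f := funext hf

lemma mat_minor (θ : Fin (ℓ + 1) → VField K ℓ) (r : Fin (ℓ + 1)) :
    minor θ r = mat (fun i => θ (r.succAbove i)) := rfl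

/-- Existence of the `g_r`. -/
lemma exists_saitoCoeffs (A : CentralArrangement K ℓ) (θ : Fin (ℓ + 1) → VField K ℓ)
    (hθ : ∀ r, A.MemD (θ r)) : ∃ g, IsSaitoCoeffs A θ g := by
  have h : ∀ r, ∃ g, (-1) ^ (r.val + 1) * (minor θ r).det = g * A.Q := by
    intro r
    obtain ⟨c, hc⟩ := Q_dvd_det A (fun i => θ (r.succAbove i)) (fun i => hθ _)
    refine ⟨(-1) ^ (r.val + 1) * c, ?_⟩
    rw [mat_minor, hc]
    ring
  choose g hg using h
  exact ⟨g, hg⟩

lemma saitoCoeffs_unique {A : CentralArrangement K ℓ} {θ : Fin (ℓ + 1) → VField K ℓ}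
    {g g'} (h : IsSaitoCoeffs A θ g) (h' : IsSaitoCoeffs A θ g') : g' = g := by
  funext r
  have := (h' r).symm.trans (h r)
  exact mul_right_cancel₀ A.Q_ne_zero this

/-- The basic relation `∑ g_r θ_r = 0`. -/
lemma saito_rel {A : CentralArrangement K ℓ} {θ : Fin (ℓ + 1) → VField K ℓ}
    {g} (h : IsSaitoCoeffs A θ g) : IsRel θ g := by
  apply rel_of_apply
  intro c
  have h0 : ∑ r : Fin (ℓ + 1), (-1) ^ (r : ℕ) * θ r c * (minor θ r).det = 0 := by
    let N : Matrix (Fin (ℓ + 1)) (Fin (ℓ + 1)) (Poly K ℓ) :=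
      Matrix.of fun r j => Fin.cases (θ r c) (fun j' => θ r j') j
    have h1 : N.det = 0 := by
      apply Matrix.det_zero_of_column_eq (i := 0) (j := c.succ) (Fin.succ_ne_zero c).symm
      intro r
      simp [N]
    rw [Matrix.det_succ_column_zero] at h1
    rw [← h1]
    refine Finset.sum_congr rfl (fun r _ => ?_)
    rfl
  have h2 : A.Q * ∑ r, g r * θ r c = 0 := by
    have : A.Q * ∑ r, g r * θ r c =
        - ∑ r : Fin (ℓ + 1), (-1) ^ (r : ℕ) * θ r c * (minor θ r).det := by
      rw [Finset.mul_sum, ← Finset.sum_neg_distrib]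
      refine Finset.sum_congr rfl (fun r _ => ?_)
      have := h r
      rw [pow_succ] at this
      linear_combination (-θ r c) * this
    rw [this, h0, neg_zero]
  exact (mul_eq_zero.mp h2).resolve_left A.Q_ne_zero

/-- `g_r η` is a combination of the `θ_s`, `s ≠ r`. -/
lemma saito_expand' {A : CentralArrangement K ℓ} {θ : Fin (ℓ + 1) → VField K ℓ}
    {g} (h : IsSaitoCoeffs A θ g) (hθ : ∀ r, A.MemD (θ r)) {η : VField K ℓ} (hη : A.MemD η)
    (r : Fin (ℓ + 1)) : ∃ B : Fin (ℓ + 1) → Poly K ℓ, B r = 0 ∧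
      ∀ j, g r * η j = ∑ s, B s * θ s j := by
  have h1 : (mat (fun i => θ (r.succAbove i))).det = ((-1) ^ (r.val + 1) * g r) * A.Q := by
    rw [mul_assoc, ← h r, ← mul_assoc, ← pow_add, mat_minor]
    simp
  obtain ⟨b, hb⟩ := cramer_expand A (fun i => θ (r.succAbove i)) (fun i => hθ _) h1 hη
  refine ⟨r.insertNth 0 (fun i => (-1) ^ (r.val + 1) * b i), by simp, ?_⟩
  intro j
  rw [Fin.sum_univ_succAbove _ r]
  simp only [Fin.insertNth_apply_same, zero_mul, Fin.insertNth_apply_succAbove, zero_add]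
  simp only [mul_assoc]
  rw [← Finset.mul_sum, ← hb j, ← mul_assoc, ← mul_assoc, ← pow_add]
  simp

/-- If `det M_{ℓ+1} ≠ 0`, then `θ_1, …, θ_ℓ` are linearly independent. -/
lemma lin_indep {A : CentralArrangement K ℓ} {θ : Fin (ℓ + 1) → VField K ℓ}
    {g} (h : IsSaitoCoeffs A θ g) (h0 : g (Fin.last ℓ) ≠ 0) {f : Fin ℓ → Poly K ℓ}
    (hf : ∀ j, ∑ i, f i * θ i.castSucc j = 0) : f = 0 := by
  have hdet : (mat (fun i : Fin ℓ => θ i.castSucc)).det ≠ 0 := by
    intro h1
    have h2 := h (Fin.last ℓ)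
    rw [mat_minor] at h2
    simp only [Fin.succAbove_last] at h2
    rw [h1, mul_zero] at h2
    exact mul_ne_zero h0 A.Q_ne_zero h2.symm
  apply Matrix.eq_zero_of_vecMul_eq_zero hdet
  funext j
  have h1 := hf j
  simpa [Matrix.vecMul, dotProduct, mat] using h1

/-- Every relation is a multiple of `g`. -/
lemma rel_multiple {A : CentralArrangement K ℓ} {θ : Fin (ℓ + 1) → VField K ℓ}
    {g} (h : IsSaitoCoeffs A θ g) (h1 : (g (Fin.last ℓ)).IsHomogeneous 1)
    (h0 : g (Fin.last ℓ) ≠ 0) (hnd : ¬ ∀ r : Fin ℓ, g (Fin.last ℓ) ∣ g r.castSucc)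
    {f : Fin (ℓ + 1) → Poly K ℓ} (hf : IsRel θ f) : ∃ b, ∀ r, f r = b * g r := by
  have hg := saito_rel h
  have hcross : ∀ r : Fin ℓ, g (Fin.last ℓ) * f r.castSucc = f (Fin.last ℓ) * g r.castSucc := by
    have h2 : ∀ j, ∑ i : Fin ℓ, (g (Fin.last ℓ) * f i.castSucc - f (Fin.last ℓ) * g i.castSucc) *
        θ i.castSucc j = 0 := by
      intro j
      have hf' := rel_apply hf j
      have hg' := rel_apply hg j
      rw [Fin.sum_univ_castSucc] at hf' hg'
      have h3 : ∑ i : Fin ℓ, (g (Fin.last ℓ) * f i.castSucc - f (Fin.last ℓ) * g i.castSucc) *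
          θ i.castSucc j = g (Fin.last ℓ) * ∑ i : Fin ℓ, f i.castSucc * θ i.castSucc j -
          f (Fin.last ℓ) * ∑ i : Fin ℓ, g i.castSucc * θ i.castSucc j := by
        rw [Finset.mul_sum, Finset.mul_sum, ← Finset.sum_sub_distrib]
        refine Finset.sum_congr rfl (fun i _ => ?_)
        ring
      rw [h3]
      linear_combination g (Fin.last ℓ) * hf' - f (Fin.last ℓ) * hg'
    have h3 := lin_indep h h0 h2
    intro r
    have h4 := congrFun h3 r
    simpa [sub_eq_zero] using h4
  have hp : Prime (g (Fin.last ℓ)) := prime_of_homog_one h1 h0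
  push Not at hnd
  obtain ⟨r0, hr0⟩ := hnd
  have hdvd : g (Fin.last ℓ) ∣ f (Fin.last ℓ) := by
    have : g (Fin.last ℓ) ∣ f (Fin.last ℓ) * g r0.castSucc := ⟨_, (hcross r0).symm⟩
    exact (hp.dvd_or_dvd this).resolve_right hr0
  obtain ⟨b, hb⟩ := hdvd
  refine ⟨b, ?_⟩
  intro r
  refine Fin.lastCases ?_ (fun r => ?_) r
  · rw [hb, mul_comm]
  · have h5 := hcross r
    rw [hb] at h5
    have h6 : g (Fin.last ℓ) * f r.castSucc = g (Fin.last ℓ) * (b * g r.castSucc) := by
      rw [h5]; ring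
    exact mul_left_cancel₀ h0 h6

/-! ## The quotient by a linear form -/

lemma dvd_of_cross {R : Type*} [CommRing R] [IsDomain R] [UniqueFactorizationMonoid R] {n : ℕ}
    (f y : Fin n → R) (hunit : ∀ D, (∀ i, D ∣ f i) → IsUnit D)
    (hcross : ∀ i k, f i * y k = f k * y i) : ∃ c, ∀ i, y i = c * f i := by
  classical
  let _ : StrongNormalizationMonoid R := UniqueFactorizationMonoid.strongNormalizationMonoid
  let _ : NormalizedGCDMonoid R := UniqueFactorizationMonoid.toNormalizedGCDMonoid R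
  obtain ⟨k, hk⟩ : ∃ k, f k ≠ 0 := by
    by_contra hcon
    push Not at hcon
    have := hunit 0 (fun i => by rw [hcon i])
    exact not_isUnit_zero this
  have h1 : f k ∣ Finset.univ.gcd (fun i => f i * y k) := by
    apply Finset.dvd_gcd
    intro i _
    rw [hcross i k]
    exact Dvd.intro _ rfl
  have h2 : Associated (Finset.univ.gcd (fun i => f i * y k)) (Finset.univ.gcd f * y k) :=
    Finset.gcd_mul_right' _ _ _
  have h3 : IsUnit (Finset.univ.gcd f) :=
    hunit _ (fun i => Finset.gcd_dvd (Finset.mem_univ i))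
  have h4 : f k ∣ y k := by
    have h5 := h2.dvd_iff_dvd_right.mp h1
    exact (h3.dvd_mul_left).mp h5
  obtain ⟨c, hc⟩ := h4
  refine ⟨c, fun i => ?_⟩
  have h5 := hcross i k
  rw [hc] at h5
  have h6 : f k * y i = f k * (c * f i) := by
    rw [← h5]; ring
  exact mul_left_cancel₀ hk h6

/-- The `K`-algebra map `S → K[x_c : c ≠ c₀]` eliminating `x_{c₀}` via `α = 0`. -/
noncomputable def elim (a : Fin ℓ → K) (c₀ : Fin ℓ) :
    Poly K ℓ →ₐ[K] MvPolynomial {c : Fin ℓ // c ≠ c₀} K :=
  aeval (fun c => if h : c = c₀ then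
    - ∑ c' : {c : Fin ℓ // c ≠ c₀}, C (a c' / a c₀) * X c' else X ⟨c, h⟩)

lemma elim_homog (a : Fin ℓ → K) (c₀ : Fin ℓ) {p : Poly K ℓ} {n : ℕ} (hp : p.IsHomogeneous n) :
    (elim a c₀ p).IsHomogeneous n := by
  have := hp.aeval (fun c => if h : c = c₀ then
    - ∑ c' : {c : Fin ℓ // c ≠ c₀}, C (a c' / a c₀) * X c' else X ⟨c, h⟩) (n := 1) (by
      intro c
      by_cases h : c = c₀
      · simp only [h, dite_true]
        exact (IsHomogeneous.sum _ _ _ (fun i _ => isHomogeneous_C_mul_X _ _)).neg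
      · simp only [h, dite_false]
        exact isHomogeneous_X _ _)
  simpa [elim] using this

lemma elim_linForm (a : Fin ℓ → K) (c₀ : Fin ℓ) (h0 : a c₀ ≠ 0) : elim a c₀ (linForm a) = 0 := by
  classical
  unfold linForm elim
  rw [map_sum]
  simp only [map_mul, aeval_X, algHom_C, algebraMap_eq]
  rw [← Finset.add_sum_erase _ _ (Finset.mem_univ c₀)]
  simp only [dite_true]
  have h1 : ∑ x ∈ Finset.univ.erase c₀, C (a x) *
      (if h : x = c₀ then - ∑ c' : {c : Fin ℓ // c ≠ c₀}, C (a c' / a c₀) * X c' else X ⟨x, h⟩) =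
      ∑ c' : {c : Fin ℓ // c ≠ c₀}, (C (a c') * X c' : MvPolynomial {c : Fin ℓ // c ≠ c₀} K) := by
    symm
    refine Finset.sum_bij (fun c _ => c.1) ?_ ?_ ?_ ?_
    · intro c _
      simp [c.2]
    · intro c _ c' _ h
      exact Subtype.ext h
    · intro c hc
      exact ⟨⟨c, by simpa using hc⟩, Finset.mem_univ _, rfl⟩
    · intro c _
      simp [c.2]
  rw [h1, mul_neg, Finset.mul_sum, neg_add_eq_zero]
  refine Finset.sum_congr rfl (fun c _ => ?_)
  rw [← mul_assoc, ← C_mul, mul_div_cancel₀ _ h0]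

lemma dvd_sub_elim (a : Fin ℓ → K) (c₀ : Fin ℓ) (h0 : a c₀ ≠ 0) (p : Poly K ℓ) :
    linForm a ∣ p - rename Subtype.val (elim a c₀ p) := by
  classical
  rw [← Ideal.mem_span_singleton, ← Ideal.Quotient.eq_zero_iff_mem, map_sub, sub_eq_zero]
  let φ₁ : Poly K ℓ →ₐ[K] (Poly K ℓ ⧸ Ideal.span {linForm a}) :=
    Ideal.Quotient.mkₐ K _
  let φ₂ : Poly K ℓ →ₐ[K] (Poly K ℓ ⧸ Ideal.span {linForm a}) :=
    φ₁.comp ((rename Subtype.val).comp (elim a c₀))
  have h : φ₁ = φ₂ := by
    apply MvPolynomial.algHom_ext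
    intro c
    by_cases hc : c = c₀
    · subst hc
      have h2 : (X c : Poly K ℓ) - (rename Subtype.val) (elim a c (X c)) =
          C (a c)⁻¹ * linForm a := by
        unfold linForm elim
        simp only [aeval_X, dite_true, map_neg, map_sum, map_mul, rename_C, rename_X, sub_neg_eq_add]
        rw [← Finset.add_sum_erase _ _ (Finset.mem_univ c)]
        rw [mul_add, ← mul_assoc, ← C_mul, inv_mul_cancel₀ h0, C_1, one_mul, Finset.mul_sum]
        congr 1
        refine Finset.sum_bij (fun c _ => c.1) ?_ ?_ ?_ ?_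
        · intro c _
          simp [c.2]
        · intro c _ c' _ h
          exact Subtype.ext h
        · intro c hc
          exact ⟨⟨c, by simpa using hc⟩, Finset.mem_univ _, rfl⟩
        · intro c' _
          rw [← mul_assoc, ← C_mul, div_eq_inv_mul]
      have h3 : Ideal.Quotient.mk (Ideal.span {linForm a})
          ((X c : Poly K ℓ) - (rename Subtype.val) (elim a c (X c))) = 0 := by
        rw [Ideal.Quotient.eq_zero_iff_mem, h2]
        exact Ideal.mul_mem_left _ _ (Ideal.mem_span_singleton_self _)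
      rw [map_sub, sub_eq_zero] at h3
      exact h3
    · have h2 : (rename Subtype.val) (elim a c₀ (X c)) = (X c : Poly K ℓ) := by
        unfold elim
        simp [hc]
      change φ₁ (X c) = φ₁ ((rename Subtype.val) (elim a c₀ (X c)))
      rw [h2]
  exact congrArg (fun φ : Poly K ℓ →ₐ[K] (Poly K ℓ ⧸ Ideal.span {linForm a}) => φ p) h

lemma elim_eq_zero_iff (a : Fin ℓ → K) (c₀ : Fin ℓ) (h0 : a c₀ ≠ 0) (p : Poly K ℓ) :
    elim a c₀ p = 0 ↔ linForm a ∣ p := by
  constructor
  · intro h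
    have := dvd_sub_elim a c₀ h0 p
    rw [h] at this
    simpa using this
  · rintro ⟨q, rfl⟩
    rw [map_mul, elim_linForm a c₀ h0, zero_mul]

/-! ## Auxiliary facts -/

lemma InSPos.constantCoeff_eq_zero {h : Poly K ℓ} (hh : InSPos h) : constantCoeff h = 0 := by
  obtain ⟨n, hn, hh⟩ := hh
  rw [constantCoeff_eq]
  apply hh.coeff_eq_zero
  simp
  omega

lemma not_C_of_homog_one {p : Poly K ℓ} (h : p.IsHomogeneous 1) (h0 : p ≠ 0) (c : K) :
    p ≠ C c := by
  rintro rfl
  have := IsHomogeneous.inj_right h (isHomogeneous_C _ _) h0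
  omega

lemma inDegree_of_homog {f : Poly K ℓ} {n : ℕ} (h : f.IsHomogeneous n) : InDegree f n := by
  intro m hm
  by_contra hcon
  exact (mem_support_iff.mp hm) (h.coeff_eq_zero (fun h' => hcon (by rw [h'])))

/-- In a relation among a minimal generating family no coefficient is a unit. -/
lemma not_isUnit_of_minGen {A : CentralArrangement K ℓ} {θ : Fin (ℓ + 1) → VField K ℓ}
    (hmin : IsMinGen A θ) {f : Fin (ℓ + 1) → Poly K ℓ} (hf : IsRel θ f) (r : Fin (ℓ + 1)) :
    ¬ IsUnit (f r) := by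
  intro hu
  obtain ⟨⟨-, hgen⟩, hmin⟩ := hmin
  apply hmin r
  intro η hη
  obtain ⟨w, hw⟩ := hgen η hη
  obtain ⟨u, hu⟩ := hu
  refine ⟨fun s => w s - (w r * ↑u⁻¹) * f s, ?_, ?_⟩
  · simp only
    rw [← hu, mul_assoc, Units.inv_mul, mul_one, sub_self]
  · funext j
    rw [← hw, comb_apply, comb_apply]
    have h1 := rel_apply hf j
    have h2 : ∑ s, (w s - (w r * ↑u⁻¹) * f s) * θ s j =
        ∑ s, w s * θ s j - (w r * ↑u⁻¹) * ∑ s, f s * θ s j := by
      rw [Finset.mul_sum, ← Finset.sum_sub_distrib]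
      refine Finset.sum_congr rfl (fun i _ => ?_)
      ring
    rw [h2, h1, mul_zero, sub_zero]

lemma not_all_dvd_of_condII {g : Fin (ℓ + 1) → Poly K ℓ} (h : CondII g) :
    ¬ ∀ r : Fin ℓ, g (Fin.last ℓ) ∣ g r.castSucc := by
  intro hall
  apply h.2.2
  refine ⟨g (Fin.last ℓ), ⟨1, one_pos, h.1.1⟩, fun r => ?_⟩
  obtain ⟨c, hc⟩ := hall r
  rw [hc]
  exact Ideal.mul_mem_right _ _ (Ideal.subset_span (by simp))

/-- The key step: (ii) implies that the `θ_r` generate `D(A)`. -/
lemma span_eq_of_condII {A : CentralArrangement K ℓ} {θ : Fin (ℓ + 1) → VField K ℓ}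
    {g} (h : IsSaitoCoeffs A θ g) (hθ : ∀ r, A.MemD (θ r)) (hII : CondII g)
    {η : VField K ℓ} (hη : A.MemD η) : ∃ w : Fin (ℓ + 1) → Poly K ℓ, comb w θ = η := by
  classical
  have hnd := not_all_dvd_of_condII hII
  obtain ⟨⟨h1, h0⟩, hpos, hno⟩ := hII
  obtain ⟨a, ha⟩ := eq_linForm h1
  obtain ⟨c₀, hc₀⟩ : ∃ c, a c ≠ 0 := by
    by_contra hcon
    push Not at hcon
    apply h0
    rw [ha]
    simp [linForm, hcon]
  obtain ⟨b, hb0, hb⟩ := saito_expand' h hθ hη (Fin.last ℓ)
  -- the cross relations modulo `α`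
  have hcross1 : ∀ r k : Fin ℓ, g r.castSucc ≠ 0 →
      g (Fin.last ℓ) ∣ g k.castSucc * b r.castSucc - g r.castSucc * b k.castSucc := by
    intro r k hr
    obtain ⟨B, hB0, hB⟩ := saito_expand' h hθ hη r.castSucc
    have hrel : IsRel θ (fun s => g (Fin.last ℓ) * B s - g r.castSucc * b s) := by
      apply rel_of_apply
      intro j
      have e1 := hb j
      have e2 := hB j
      have e3 : ∑ s, (g (Fin.last ℓ) * B s - g r.castSucc * b s) * θ s j =
          g (Fin.last ℓ) * ∑ s, B s * θ s j - g r.castSucc * ∑ s, b s * θ s j := by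
        rw [Finset.mul_sum, Finset.mul_sum, ← Finset.sum_sub_distrib]
        refine Finset.sum_congr rfl (fun i _ => ?_)
        ring
      rw [e3, ← e1, ← e2]
      ring
    obtain ⟨β, hβ⟩ := rel_multiple h h1 h0 hnd hrel
    have e4 := hβ r.castSucc
    have e5 : β = - b r.castSucc := by
      simp only [hB0] at e4
      apply mul_right_cancel₀ hr
      linear_combination -e4
    have e6 := hβ k.castSucc
    simp only [e5] at e6
    exact ⟨-B k.castSucc, by linear_combination e6⟩
  have hcross2 : ∀ r k : Fin ℓ,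
      elim a c₀ (g r.castSucc) * elim a c₀ (b k.castSucc) =
      elim a c₀ (g k.castSucc) * elim a c₀ (b r.castSucc) := by
    intro r k
    by_cases hr : g r.castSucc = 0
    · by_cases hk : g k.castSucc = 0
      · rw [hr, hk, map_zero, zero_mul, zero_mul]
      · have := (elim_eq_zero_iff a c₀ hc₀ _).mpr (ha ▸ hcross1 k r hk)
        rw [map_sub, map_mul, map_mul, sub_eq_zero] at this
        exact this
    · have := (elim_eq_zero_iff a c₀ hc₀ _).mpr (ha ▸ hcross1 r k hr)
      rw [map_sub, map_mul, map_mul, sub_eq_zero] at this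
      exact this.symm
  -- no common divisor modulo `α`
  have hunit : ∀ D, (∀ i : Fin ℓ, D ∣ elim a c₀ (g i.castSucc)) → IsUnit D := by
    intro D hD
    push Not at hnd
    obtain ⟨i₀, hi₀⟩ := hnd
    have hne : elim a c₀ (g i₀.castSucc) ≠ 0 := by
      rw [Ne, elim_eq_zero_iff a c₀ hc₀, ← ha]
      exact hi₀
    obtain ⟨n, hn, hgn⟩ := hpos i₀
    have hhom := elim_homog a c₀ hgn
    obtain ⟨E, hE⟩ := hD i₀
    rw [hE] at hhom hne
    have hD0 : D ≠ 0 := left_ne_zero_of_mul hne
    have hE0 : E ≠ 0 := right_ne_zero_of_mul hne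
    have hDh := homog_left_of_mul hhom hD0 hE0
    by_contra hDu
    apply hno
    refine ⟨rename Subtype.val D, ⟨D.totalDegree, ?_, hDh.rename_isHomogeneous⟩, ?_⟩
    · rw [Nat.pos_iff_ne_zero]
      intro h00
      apply hDu
      rw [totalDegree_eq_zero_iff_eq_C] at h00
      rw [h00]
      have : coeff 0 D ≠ 0 := by
        intro h00'
        rw [h00', C_0] at h00
        exact hD0 h00
      exact (isUnit_iff_ne_zero.mpr this).map C
    · intro i
      obtain ⟨F, hF⟩ := hD i
      have h2 := dvd_sub_elim a c₀ hc₀ (g i.castSucc)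
      rw [← ha] at h2
      obtain ⟨G, hG⟩ := h2
      rw [Ideal.mem_span_pair]
      refine ⟨rename Subtype.val F, G, ?_⟩
      rw [hF, map_mul] at hG
      linear_combination -hG
  obtain ⟨c, hc⟩ := dvd_of_cross (fun i : Fin ℓ => elim a c₀ (g i.castSucc))
    (fun i : Fin ℓ => elim a c₀ (b i.castSucc)) hunit hcross2
  have hdiv : ∀ i : Fin ℓ, ∃ d, b i.castSucc - rename Subtype.val c * g i.castSucc =
      g (Fin.last ℓ) * d := by
    intro i
    have e1 := dvd_sub_elim a c₀ hc₀ (b i.castSucc)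
    have e2 := dvd_sub_elim a c₀ hc₀ (g i.castSucc)
    rw [← ha] at e1 e2
    have e3 : elim a c₀ (b i.castSucc) = c * elim a c₀ (g i.castSucc) := hc i
    rw [e3, map_mul] at e1
    obtain ⟨d1, hd1⟩ := e1
    obtain ⟨d2, hd2⟩ := e2
    exact ⟨d1 - rename Subtype.val c * d2, by
      linear_combination hd1 - rename Subtype.val c * hd2⟩
  choose d hd using hdiv
  refine ⟨Fin.lastCases (-rename Subtype.val c) d, ?_⟩
  funext j
  rw [comb_apply]
  apply mul_left_cancel₀ h0
  have e1 := hb j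
  have e2 := rel_apply (saito_rel h) j
  rw [Fin.sum_univ_castSucc] at e1 e2 ⊢
  simp only [Fin.lastCases_last, Fin.lastCases_castSucc]
  rw [hb0, zero_mul, add_zero] at e1
  have e3 : ∑ i : Fin ℓ, b i.castSucc * θ i.castSucc j =
      rename Subtype.val c * ∑ i : Fin ℓ, g i.castSucc * θ i.castSucc j +
      g (Fin.last ℓ) * ∑ i : Fin ℓ, d i * θ i.castSucc j := by
    rw [Finset.mul_sum, Finset.mul_sum, ← Finset.sum_add_distrib]
    refine Finset.sum_congr rfl (fun i _ => ?_)
    linear_combination (θ i.castSucc j) * hd i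
  rw [e1, e3]
  linear_combination -(rename Subtype.val c) * e2

/-! ## Degrees -/

lemma det_mat_homog {η : Fin ℓ → VField K ℓ} {δ : Fin ℓ → ℕ}
    (h : ∀ i j, (η i j).IsHomogeneous (δ i)) : ((mat η).det).IsHomogeneous (∑ i, δ i) := by
  rw [Matrix.det_apply]
  apply IsHomogeneous.sum
  intro σ _
  have h1 : (∏ i, mat η (σ i) i).IsHomogeneous (∑ i, δ (σ i)) := by
    apply IsHomogeneous.prod
    intro i _
    exact h (σ i) i
  rw [Equiv.sum_comp σ δ] at h1
  rcases Int.units_eq_one_or (Equiv.Perm.sign σ) with h2 | h2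
  · rw [h2, one_smul]
    exact h1
  · rw [h2, Units.neg_smul, one_smul]
    exact h1.neg

lemma saitoCoeff_homog {A : CentralArrangement K ℓ} {θ : Fin (ℓ + 1) → VField K ℓ}
    {g} (h : IsSaitoCoeffs A θ g) {δ : Fin (ℓ + 1) → ℕ}
    (hδ : ∀ r j, (θ r j).IsHomogeneous (δ r)) (r : Fin (ℓ + 1)) (hr : g r ≠ 0) :
    (g r).IsHomogeneous (g r).totalDegree ∧
      (g r).totalDegree + A.hyperplanes.card + δ r = ∑ s, δ s := by
  have h1 : (g r * A.Q).IsHomogeneous (∑ i, δ (r.succAbove i)) := by
    rw [← h r, mat_minor]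
    have h2 := det_mat_homog (η := fun i => θ (r.succAbove i)) (δ := fun i => δ (r.succAbove i))
      (fun i j => hδ _ j)
    rcases neg_one_pow_eq_or (Poly K ℓ) (r.val + 1) with h3 | h3
    · rw [h3, one_mul]
      exact h2
    · rw [h3, neg_one_mul]
      exact h2.neg
  refine ⟨homog_left_of_mul h1 hr A.Q_ne_zero, ?_⟩
  have h2 := h1.totalDegree (mul_ne_zero hr A.Q_ne_zero)
  rw [totalDegree_mul_of_isDomain hr A.Q_ne_zero, A.Q_homog.totalDegree A.Q_ne_zero] at h2
  rw [Fin.sum_univ_succAbove _ r, h2, add_comm]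

/-! ## The two implications -/

theorem condI_of_condII {A : CentralArrangement K ℓ} {θ : Fin (ℓ + 1) → VField K ℓ}
    {g} (h : IsSaitoCoeffs A θ g) (hθ : ∀ r, A.MemD (θ r))
    (hhom : ∀ r, ∃ d : ℕ, ∀ j, (θ r j).IsHomogeneous d)
    (hII : CondII g) : CondI A θ g := by
  classical
  have hnd := not_all_dvd_of_condII hII
  have hgen : Generates A θ := ⟨hθ, fun η hη => span_eq_of_condII h hθ hII hη⟩
  have h1 := hII.1.1
  have h0 := hII.1.2
  have hcc : ∀ r, constantCoeff (g r) = 0 := by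
    intro r
    refine Fin.lastCases ?_ (fun r => ?_) r
    · exact InSPos.constantCoeff_eq_zero ⟨1, one_pos, h1⟩
    · exact (hII.2.1 r).constantCoeff_eq_zero
  refine ⟨?_, ⟨hgen, ?_⟩, ⟨saito_rel h, ?_, ?_⟩, hII.1⟩
  · -- the resolution
    choose δ hδ using hhom
    refine ⟨θ, g, fun r => δ r, ⟨?_, ?_, hgen⟩, ⟨?_, ?_⟩, hcc, h0⟩
    · intro hg
      exact h0 (congrFun hg _)
    · intro f
      constructor
      · intro hf
        exact rel_multiple h h1 h0 hnd hf
      · rintro ⟨b, hb⟩
        apply rel_of_apply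
        intro j
        simp only [hb, mul_assoc]
        rw [← Finset.mul_sum, rel_apply (saito_rel h) j, mul_zero]
    · intro r j
      exact inDegree_of_homog (hδ _ _)
    · intro r
      by_cases hr : g r = 0
      · rw [hr]
        intro m hm
        simp at hm
      · obtain ⟨e1, e2⟩ := saitoCoeff_homog h hδ _ hr
        obtain ⟨-, e4⟩ := saitoCoeff_homog h hδ _ h0
        rw [h1.totalDegree h0] at e4
        have e5 := inDegree_of_homog e1
        have e6 : (((g r).totalDegree : ℕ) : ℤ) =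
            (δ (Fin.last ℓ) : ℤ) + 1 - (δ r : ℤ) := by omega
        rw [e6] at e5
        exact e5
  · -- minimality
    intro r hr
    obtain ⟨w, hw0, hw⟩ := hr (θ r) (hθ r)
    have hrel : IsRel θ (fun s => w s - if s = r then 1 else 0) := by
      apply rel_of_apply
      intro j
      have hw' := congrFun hw j
      rw [comb_apply] at hw'
      simp only [sub_mul, Finset.sum_sub_distrib, hw', ite_mul, one_mul, zero_mul,
        Finset.sum_ite_eq', Finset.mem_univ, if_true, sub_self]
    obtain ⟨b, hb⟩ := rel_multiple h h1 h0 hnd hrel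
    have h3 := congrArg constantCoeff (hb r)
    simp [hw0, hcc r] at h3
  · -- no common divisor
    intro q hq
    have hp : Prime (g (Fin.last ℓ)) := prime_of_homog_one h1 h0
    obtain ⟨e, he⟩ := hq (Fin.last ℓ)
    rcases hp.irreducible.isUnit_or_isUnit he with hu | hu
    · rw [isUnit_iff_eq_C_of_isReduced] at hu
      obtain ⟨c, -, hc⟩ := hu
      exact ⟨c, hc⟩
    · exfalso
      apply hnd
      intro r
      have h2 : Associated (g (Fin.last ℓ)) q := by
        rw [he]
        exact (associated_mul_isUnit_left_iff hu).mpr (Associated.refl _)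
      exact h2.dvd.trans (hq r.castSucc)
  · -- uniqueness of the relation
    intro f hf hnc
    obtain ⟨b, hb⟩ := rel_multiple h h1 h0 hnd hf
    obtain ⟨c, hc⟩ := hnc b (fun r => ⟨g r, hb r⟩)
    refine ⟨c, ?_, fun r => by rw [hb r, hc]⟩
    rintro rfl
    rw [C_0] at hc
    have h2 : ∀ r, f r = 0 := fun r => by rw [hb r, hc, zero_mul]
    obtain ⟨c, hc⟩ := hnc (g (Fin.last ℓ)) (fun r => by rw [h2 r]; exact dvd_zero _)
    exact not_C_of_homog_one h1 h0 c hc

theorem condII_of_condI {A : CentralArrangement K ℓ} {θ : Fin (ℓ + 1) → VField K ℓ}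
    {g} (h : IsSaitoCoeffs A θ g) (hθ : ∀ r, A.MemD (θ r))
    (hhom : ∀ r, ∃ d : ℕ, ∀ j, (θ r j).IsHomogeneous d)
    (hI : CondI A θ g) : CondII g := by
  classical
  obtain ⟨-, hmin, ⟨hrel, hnc, -⟩, h1, h0⟩ := hI
  have hp : Prime (g (Fin.last ℓ)) := prime_of_homog_one h1 h0
  have hcc0 : constantCoeff (g (Fin.last ℓ)) = 0 :=
    InSPos.constantCoeff_eq_zero ⟨1, one_pos, h1⟩
  have hnd : ¬ ∀ r : Fin ℓ, g (Fin.last ℓ) ∣ g r.castSucc := by
    intro hall
    obtain ⟨c, hc⟩ := hnc (g (Fin.last ℓ)) (fun r => by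
      refine Fin.lastCases ?_ (fun r => ?_) r
      · exact dvd_refl _
      · exact hall r)
    exact not_C_of_homog_one h1 h0 c hc
  refine ⟨⟨h1, h0⟩, ?_, ?_⟩
  · intro r
    by_cases hr : g r.castSucc = 0
    · rw [hr]
      exact ⟨1, one_pos, isHomogeneous_zero _ _ _⟩
    · choose δ hδ using hhom
      obtain ⟨e1, -⟩ := saitoCoeff_homog h hδ _ hr
      refine ⟨_, ?_, e1⟩
      rw [Nat.pos_iff_ne_zero]
      intro h2
      rw [totalDegree_eq_zero_iff_eq_C] at h2
      apply not_isUnit_of_minGen hmin hrel r.castSucc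
      rw [h2]
      have : coeff 0 (g r.castSucc) ≠ 0 := by
        intro h3
        rw [h3, C_0] at h2
        exact hr h2
      exact (isUnit_iff_ne_zero.mpr this).map C
  · rintro ⟨q, hq, hmem⟩
    have hqc := hq.constantCoeff_eq_zero
    have h2 : ∀ r : Fin ℓ, ∃ u v, u * q + v * g (Fin.last ℓ) = g r.castSucc := fun r =>
      Ideal.mem_span_pair.mp (hmem r)
    choose u v huv using h2
    by_cases hdvd : g (Fin.last ℓ) ∣ q
    · obtain ⟨k, hk⟩ := hdvd
      have hrel' : IsRel θ (Fin.lastCases 1 (fun r => u r * k + v r)) := by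
        apply rel_of_apply
        intro j
        have h3 := rel_apply hrel j
        rw [Fin.sum_univ_castSucc] at h3 ⊢
        simp only [Fin.lastCases_last, Fin.lastCases_castSucc]
        apply mul_left_cancel₀ h0
        rw [mul_zero, ← h3, mul_add, Finset.mul_sum]
        congr 1
        · refine Finset.sum_congr rfl (fun r _ => ?_)
          rw [← huv r, hk]
          ring
        · ring
      apply not_isUnit_of_minGen hmin hrel' (Fin.last ℓ)
      simp
    · -- the vector field `η`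
      have h3 : ∀ t : Fin (ℓ + 1) → Poly K ℓ, ∑ r, g r * t r = 0 →
          q * (∑ r : Fin ℓ, u r * t r.castSucc) +
          g (Fin.last ℓ) * (∑ r : Fin ℓ, v r * t r.castSucc + t (Fin.last ℓ)) = 0 := by
        intro t h4
        rw [Fin.sum_univ_castSucc] at h4
        rw [← h4, mul_add, ← add_assoc, Finset.mul_sum, Finset.mul_sum, ← Finset.sum_add_distrib]
        congr 1
        refine Finset.sum_congr rfl (fun r _ => ?_)
        rw [← huv r]
        ring
      have h4 : ∀ j, g (Fin.last ℓ) ∣ ∑ r : Fin ℓ, u r * θ r.castSucc j := by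
        intro j
        have h5 : g (Fin.last ℓ) ∣ q * (∑ r : Fin ℓ, u r * θ r.castSucc j) :=
          ⟨-(∑ r : Fin ℓ, v r * θ r.castSucc j + θ (Fin.last ℓ) j), by
            linear_combination h3 (fun r => θ r j) (rel_apply hrel j)⟩
        exact (hp.dvd_or_dvd h5).resolve_left hdvd
      choose η he using h4
      have hη1' : ∀ p, g (Fin.last ℓ) * act η p = ∑ r : Fin ℓ, u r * act (θ r.castSucc) p := by
        intro p
        unfold act
        simp only [Finset.mul_sum]
        rw [Finset.sum_comm]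
        refine Finset.sum_congr rfl (fun j _ => ?_)
        rw [← mul_assoc, ← he j, Finset.sum_mul]
        refine Finset.sum_congr rfl (fun r _ => ?_)
        ring
      have hη2 : ∀ j, ∑ r : Fin ℓ, v r * θ r.castSucc j + θ (Fin.last ℓ) j = - (q * η j) := by
        intro j
        apply mul_left_cancel₀ h0
        have h5 := h3 (fun r => θ r j) (rel_apply hrel j)
        rw [he j] at h5
        linear_combination h5
      have hη2' : ∀ p, ∑ r : Fin ℓ, v r * act (θ r.castSucc) p + act (θ (Fin.last ℓ)) p =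
          - (q * act η p) := by
        intro p
        apply mul_left_cancel₀ h0
        have h5 := h3 (fun r => act (θ r) p) (rel_act hrel p)
        rw [← hη1' p] at h5
        linear_combination h5
      have hηmem : A.MemD η := by
        intro H hH
        have hpH := A.form_prime hH
        have e1 : A.form H ∣ g (Fin.last ℓ) * act η (A.form H) := by
          rw [hη1']
          apply Finset.dvd_sum
          intro r _
          exact Dvd.dvd.mul_left (hθ r.castSucc H hH) _
        have e2 : A.form H ∣ q * act η (A.form H) := by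
          have : A.form H ∣ - (q * act η (A.form H)) := by
            rw [← hη2']
            apply dvd_add
            · apply Finset.dvd_sum
              intro r _
              exact Dvd.dvd.mul_left (hθ r.castSucc H hH) _
            · exact hθ (Fin.last ℓ) H hH
          exact (dvd_neg).mp this
        by_contra hcon
        have e3 := (hpH.dvd_or_dvd e1).resolve_right hcon
        have e4 := (hpH.dvd_or_dvd e2).resolve_right hcon
        have e5 : Associated (A.form H) (g (Fin.last ℓ)) :=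
          hpH.irreducible.associated_of_dvd hp.irreducible e3
        exact hdvd (e5.symm.dvd.trans e4)
      obtain ⟨w, hw⟩ := hmin.1.2 η hηmem
      have hrel' : IsRel θ (fun s => Fin.lastCases (motive := fun _ => Poly K ℓ) 1 v s +
          q * w s) := by
        apply rel_of_apply
        intro j
        have h5 : ∑ s, (Fin.lastCases (motive := fun _ => Poly K ℓ) 1 v s + q * w s) * θ s j =
            (∑ r : Fin ℓ, v r * θ r.castSucc j + θ (Fin.last ℓ) j) +
              q * ∑ s, w s * θ s j := by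
          simp only [add_mul, Finset.sum_add_distrib]
          congr 1
          · rw [Fin.sum_univ_castSucc]
            simp
          · rw [Finset.mul_sum]
            refine Finset.sum_congr rfl (fun s _ => ?_)
            ring
        rw [h5, hη2, ← comb_apply, hw]
        ring
      obtain ⟨b, hb⟩ := rel_multiple h h1 h0 hnd hrel'
      have h6 := congrArg constantCoeff (hb (Fin.last ℓ))
      simp [hqc, hcc0] at h6

/-! ## Sanity check: the generic arrangement of four planes

The conditions are satisfied by `xyz(x+y+z) = 0` in `K^3`, with the Euler field and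
`xy(∂_x-∂_y)`, `xz(∂_x-∂_z)`, `yz(∂_y-∂_z)`.  Here `g_1 = 0`, so that `0` has to be counted as an
element of `S_{>0}` (as is usual) for the equivalence to hold. -/

/-- The hyperplane `∑ a_i x_i = 0`. -/
def hyp (a : Fin ℓ → K) : Submodule K (Fin ℓ → K) where
  carrier := {v | ∑ i, a i * v i = 0}
  zero_mem' := by simp
  add_mem' := by
    intro v w hv hw
    simp only [Set.mem_ofPred_eq] at *
    simp [mul_add, Finset.sum_add_distrib, hv, hw]
  smul_mem' := by
    intro c v hv
    simp only [Set.mem_ofPred_eq] at *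
    have : ∑ i, a i * (c • v) i = c * ∑ i, a i * v i := by
      rw [Finset.mul_sum]
      refine Finset.sum_congr rfl (fun i _ => ?_)
      simp
      ring
    rw [this, hv, mul_zero]

open Classical in
/-- The arrangement with the given (pairwise non-proportional) linear forms. -/
noncomputable def ofForms {n : ℕ} (a : Fin n → Fin ℓ → K) (h0 : ∀ i, a i ≠ 0) :
    CentralArrangement K ℓ where
  hyperplanes := Finset.univ.image (fun i => hyp (a i))
  coeffs := fun H => if h : ∃ i, hyp (a i) = H then a h.choose else 0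
  coeffs_ne_zero := by
    intro H hH
    obtain ⟨i, -, hi⟩ := Finset.mem_image.mp hH
    have h : ∃ i, hyp (a i) = H := ⟨i, hi⟩
    simp only [h, dite_true]
    exact h0 _
  mem_iff := by
    intro H hH v
    obtain ⟨i, -, hi⟩ := Finset.mem_image.mp hH
    have h : ∃ i, hyp (a i) = H := ⟨i, hi⟩
    simp only [h, dite_true]
    conv_lhs => rw [← h.choose_spec]
    rfl

lemma ofForms_form {n : ℕ} (a : Fin n → Fin ℓ → K) (h0 : ∀ i, a i ≠ 0)
    (hinj : Function.Injective (fun i => hyp (a i))) (i : Fin n) :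
    (ofForms a h0).form (hyp (a i)) = linForm (a i) := by
  have h : ∃ j, hyp (a j) = hyp (a i) := ⟨i, rfl⟩
  unfold CentralArrangement.form ofForms
  simp only [h, dite_true]
  rw [hinj h.choose_spec]

lemma ofForms_Q {n : ℕ} (a : Fin n → Fin ℓ → K) (h0 : ∀ i, a i ≠ 0)
    (hinj : Function.Injective (fun i => hyp (a i))) :
    (ofForms a h0).Q = ∏ i, linForm (a i) := by
  classical
  unfold CentralArrangement.Q
  have : (ofForms a h0).hyperplanes = Finset.univ.image (fun i => hyp (a i)) := rfl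
  rw [this, Finset.prod_image (fun i _ j _ hij => hinj hij)]
  exact Finset.prod_congr rfl (fun i _ => ofForms_form a h0 hinj i)

lemma mem_ofForms_logDer {n : ℕ} (a : Fin n → Fin ℓ → K) (h0 : ∀ i, a i ≠ 0)
    (hinj : Function.Injective (fun i => hyp (a i))) (θ : VField K ℓ)
    (h : ∀ i, linForm (a i) ∣ act θ (linForm (a i))) : (ofForms a h0).MemD θ := by
  classical
  intro H hH
  obtain ⟨i, -, rfl⟩ := Finset.mem_image.mp hH
  rw [ofForms_form a h0 hinj]
  exact h i

/-- The forms `x, y, z, x + y + z`. -/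
def fourForms (K : Type u) [Field K] : Fin 4 → Fin 3 → K :=
  ![![1, 0, 0], ![0, 1, 0], ![0, 0, 1], ![1, 1, 1]]

lemma fourForms_ne (i : Fin 4) : fourForms K i ≠ 0 := by
  intro h
  fin_cases i
  · simpa [fourForms] using congrFun h 0
  · simpa [fourForms] using congrFun h 1
  · simpa [fourForms] using congrFun h 2
  · simpa [fourForms] using congrFun h 0

lemma fourForms_inj : Function.Injective (fun i => hyp (fourForms K i)) := by
  intro i j hij
  by_contra hne
  have key : ∀ v : Fin 3 → K, (∑ k, fourForms K i k * v k = 0) ↔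
      (∑ k, fourForms K j k * v k = 0) := by
    intro v
    have := congrArg (fun H : Submodule K (Fin 3 → K) => v ∈ H) hij
    exact this.to_iff
  have k1 := key ![1, 0, 0]
  have k2 := key ![0, 1, 0]
  have k3 := key ![0, 0, 1]
  fin_cases i <;> fin_cases j <;> simp_all [fourForms, Fin.sum_univ_three]

/-- The Euler field and `xy(∂_x-∂_y)`, `xz(∂_x-∂_z)`, `yz(∂_y-∂_z)`. -/
noncomputable def fourFields (K : Type u) [Field K] : Fin 4 → VField K 3 :=
  ![![X 0, X 1, X 2], ![X 0 * X 1, -(X 0 * X 1), 0], ![X 0 * X 2, 0, -(X 0 * X 2)],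
    ![0, X 1 * X 2, -(X 1 * X 2)]]

lemma fourFields_mem (r : Fin 4) :
    (ofForms (fourForms K) fourForms_ne).MemD (fourFields K r) := by
  apply mem_ofForms_logDer _ _ fourForms_inj
  intro i
  rw [act_linForm]
  fin_cases r <;> fin_cases i <;>
    simp [fourFields, fourForms, linForm, Fin.sum_univ_three]

lemma fourFields_saito : IsSaitoCoeffs (ofForms (fourForms K) fourForms_ne) (fourFields K)
    ![0, X 2, -X 1, X 0] := by
  intro r
  rw [ofForms_Q _ _ fourForms_inj]
  fin_cases r <;>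
    simp [minor, Matrix.det_fin_three, fourFields, fourForms, linForm, Fin.sum_univ_three,
      Fin.prod_univ_four, Fin.succAbove, Fin.lt_def] <;> ring

lemma fourFields_condII : CondII (K := K) (ℓ := 3) ![0, X 2, -X 1, X 0] := by
  refine ⟨⟨isHomogeneous_X _ _, X_ne_zero _⟩, ?_, ?_⟩
  · intro r
    refine ⟨1, one_pos, ?_⟩
    fin_cases r
    · exact isHomogeneous_zero _ _ _
    · exact isHomogeneous_X _ _
    · exact (isHomogeneous_X _ _).neg
  · rintro ⟨h, hh, hmem⟩
    have hcc := hh.constantCoeff_eq_zero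
    let φ : Poly K 3 →ₐ[K] Poly K 3 := aeval ![0, X 1, X 2]
    have hφ : constantCoeff (φ h) = 0 := by
      have h1 : (constantCoeff.comp (φ : Poly K 3 →+* Poly K 3)) = constantCoeff := by
        apply MvPolynomial.ringHom_ext
        · intro c
          simp [φ]
        · intro i
          fin_cases i <;> simp [φ]
      have h2 := congrArg (fun f : Poly K 3 →+* K => f h) h1
      simpa [hcc] using h2
    have d2 : φ h ∣ X 2 := by
      have h1 := hmem 1
      rw [Ideal.mem_span_pair] at h1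
      obtain ⟨a, b, hab⟩ := h1
      have h2 := congrArg φ hab
      refine ⟨φ a, ?_⟩
      simp [φ, Fin.last] at h2
      simp only [φ]
      rw [mul_comm]
      exact h2.symm
    have d1 : φ h ∣ X 1 := by
      have h1 := hmem 2
      rw [Ideal.mem_span_pair] at h1
      obtain ⟨a, b, hab⟩ := h1
      have h2 := congrArg φ hab
      refine ⟨-φ a, ?_⟩
      simp [φ, Fin.last] at h2
      have h3 : φ a * φ h = -X 1 := h2
      linear_combination h3
    have hirr : Irreducible (X 1 : Poly K 3) := (prime_of_homog_one (isHomogeneous_X _ _)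
      (X_ne_zero _)).irreducible
    obtain ⟨e, he⟩ := d1
    rcases hirr.isUnit_or_isUnit he with hu | hu
    · rw [isUnit_iff_eq_C_of_isReduced] at hu
      obtain ⟨c, hc, hc'⟩ := hu
      rw [hc', constantCoeff_C] at hφ
      exact hc.ne_zero hφ
    · have h3 : (X 1 : Poly K 3) ∣ X 2 := by
        have h4 : Associated (X 1 : Poly K 3) (φ h) := by
          rw [he]
          exact (associated_mul_isUnit_left_iff hu).mpr (Associated.refl _)
        exact h4.dvd.trans d2
      rw [X_dvd_X] at h3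
      simp at h3

/-- The generic arrangement of four planes satisfies (i) and (ii): the conditions are not
vacuous. -/
theorem fourFields_condI : CondI (ofForms (fourForms K) fourForms_ne) (fourFields K)
    ![0, X 2, -X 1, X 0] := by
  apply condI_of_condII fourFields_saito (fun r => fourFields_mem r) _ fourFields_condII
  intro r
  fin_cases r
  · refine ⟨1, fun j => ?_⟩
    fin_cases j <;> simp [fourFields] <;> exact isHomogeneous_X _ _
  · refine ⟨2, fun j => ?_⟩
    fin_cases j
    · simpa [fourFields] using (isHomogeneous_X K 0).mul (isHomogeneous_X K 1)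
    · simpa [fourFields] using ((isHomogeneous_X K 0).mul (isHomogeneous_X K 1)).neg
    · simpa [fourFields] using isHomogeneous_zero _ _ _
  · refine ⟨2, fun j => ?_⟩
    fin_cases j
    · simpa [fourFields] using (isHomogeneous_X K 0).mul (isHomogeneous_X K 2)
    · simpa [fourFields] using isHomogeneous_zero _ _ _
    · simpa [fourFields] using ((isHomogeneous_X K 0).mul (isHomogeneous_X K 2)).neg
  · refine ⟨2, fun j => ?_⟩
    fin_cases j
    · simpa [fourFields] using isHomogeneous_zero _ _ _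
    · simpa [fourFields] using (isHomogeneous_X K 1).mul (isHomogeneous_X K 2)
    · simpa [fourFields] using ((isHomogeneous_X K 1).mul (isHomogeneous_X K 2)).neg

/-! ## The theorem -/

/-- **Saito-type recognition of SPOG arrangements.**  For every field `K`, every `ℓ`, every central
arrangement `A` in `K^ℓ` and all homogeneous `θ_1, …, θ_{ℓ+1} ∈ D(A)`, the polynomials `g_r` with
`(-1)^r det M_r = g_r Q` exist and are unique, and conditions (i) and (ii) are equivalent.  There
is no assumption on the projective dimension of `D(A)`. -/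
theorem result (K : Type u) [Field K] (ℓ : ℕ) (A : CentralArrangement K ℓ)
    (θ : Fin (ℓ + 1) → VField K ℓ) (hθ : ∀ r, A.MemD (θ r))
    (hhom : ∀ r, ∃ d : ℕ, ∀ j, (θ r j).IsHomogeneous d) :
    ∃ g : Fin (ℓ + 1) → Poly K ℓ,
      IsSaitoCoeffs A θ g ∧ (∀ g', IsSaitoCoeffs A θ g' → g' = g) ∧
      (CondI A θ g ↔ CondII g) := by
  obtain ⟨g, hg⟩ := exists_saitoCoeffs A θ hθ
  exact ⟨g, hg, fun g' hg' => saitoCoeffs_unique hg hg',
    condII_of_condI hg hθ hhom, condI_of_condII hg hθ hhom⟩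

end Pool.Agent.Results.MP_eea557_ag.SpogRecognition
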